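import Pool.Agent.H26.LV.TargetsAri

/-!
# Products of coprime moduli (row MUL)
-/

set_option autoImplicit false

namespace Pool.Agent.H73.LV

open Finset Polynomial Pool.Agent.H26.LV

theorem ee_add (q : ℕ) (a b : ℤ) : ee q (a + b) = ee q a * ee q b := by
  unfold ee
  rw [← Complex.exp_add]
  refine congrArg _ ?_
  push_cast
  ring

theorem ee_mul_self (q : ℕ) (n : ℤ) : ee q ((q : ℤ) * n) = 1 := by
  unfold ee
  rcases Nat.eq_zero_or_pos q with h | h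
  · subst h
    simp
  · have hq : ((q : ℕ) : ℂ) ≠ 0 := by exact_mod_cast h.ne'
    have e : 2 * (Real.pi : ℂ) * Complex.I * (((((q : ℤ) * n : ℤ)) : ℂ) / (q : ℂ)) =
        (n : ℂ) * (2 * Real.pi * Complex.I) := by
      push_cast
      field_simp
    rw [e]
    exact Complex.exp_int_mul_two_pi_mul_I n

theorem ee_congr (q : ℕ) (a b : ℤ) (h : (q : ℤ) ∣ a - b) : ee q a = ee q b := by
  obtain ⟨n, hn⟩ := h
  have e : a = b + (q : ℤ) * n := by linarith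
  rw [e, ee_add, ee_mul_self, mul_one]

theorem ee_split (q₁ q₂ : ℕ) (h₁ : 1 ≤ q₁) (h₂ : 1 ≤ q₂) (c₁ c₂ : ℤ)
    (h : c₁ * q₂ + c₂ * q₁ = 1) (n : ℤ) : ee (q₁ * q₂) n = ee q₁ (c₁ * n) * ee q₂ (c₂ * n) := by
  unfold ee
  rw [← Complex.exp_add]
  refine congrArg _ ?_
  have e₁ : (q₁ : ℂ) ≠ 0 := by exact_mod_cast (show q₁ ≠ 0 by omega)
  have e₂ : (q₂ : ℂ) ≠ 0 := by exact_mod_cast (show q₂ ≠ 0 by omega)
  have h' : (c₁ : ℂ) * q₂ + c₂ * q₁ = 1 := by exact_mod_cast h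
  have e : (n : ℂ) / ((q₁ * q₂ : ℕ) : ℂ) =
      ((c₁ * n : ℤ) : ℂ) / (q₁ : ℂ) + ((c₂ * n : ℤ) : ℂ) / (q₂ : ℂ) := by
    push_cast
    rw [div_add_div _ _ e₁ e₂]
    refine congrArg (fun w => w / ((q₁ : ℂ) * q₂)) ?_
    linear_combination (-(n : ℂ)) * h'
  rw [e]
  ring

theorem eval_mod (q : ℕ) (G : ℤ[X]) (z : ℕ) :
    (q : ℤ) ∣ G.eval (z : ℤ) - G.eval ((z % q : ℕ) : ℤ) := by
  refine dvd_trans ?_ (Polynomial.sub_dvd_eval_sub _ _ G)
  refine ⟨((z / q : ℕ) : ℤ), ?_⟩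
  have h := Nat.mod_add_div z q
  have h' : ((z % q : ℕ) : ℤ) + (q : ℤ) * ((z / q : ℕ) : ℤ) = (z : ℤ) := by exact_mod_cast h
  linarith

theorem SS_mul (q₁ q₂ : ℕ) (h₁ : 1 ≤ q₁) (h₂ : 1 ≤ q₂) (hc : q₁.Coprime q₂) (c₁ c₂ : ℤ)
    (h : c₁ * q₂ + c₂ * q₁ = 1) (G : ℤ[X]) :
    SS (q₁ * q₂) G = SS q₁ (C c₁ * G) * SS q₂ (C c₂ * G) := by
  unfold SS
  have e : ∑ z ∈ range (q₁ * q₂), ee (q₁ * q₂) (G.eval (z : ℤ)) =
      ∑ w ∈ range q₁ ×ˢ range q₂,
        ee q₁ ((C c₁ * G).eval (w.1 : ℤ)) * ee q₂ ((C c₂ * G).eval (w.2 : ℤ)) := by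
    refine Finset.sum_bij (fun z _ => (z % q₁, z % q₂)) ?_ ?_ ?_ ?_
    · intro z _
      rw [Finset.mem_product]
      exact ⟨Finset.mem_range.mpr (Nat.mod_lt _ h₁), Finset.mem_range.mpr (Nat.mod_lt _ h₂)⟩
    · intro z hz z' hz' he
      have e₁ : z % q₁ = z' % q₁ := congrArg Prod.fst he
      have e₂ : z % q₂ = z' % q₂ := congrArg Prod.snd he
      have e₃ : z ≡ z' [MOD q₁ * q₂] := (Nat.modEq_and_modEq_iff_modEq_mul hc).mp ⟨e₁, e₂⟩
      exact Nat.ModEq.eq_of_lt_of_lt e₃ (Finset.mem_range.mp hz) (Finset.mem_range.mp hz')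
    · rintro ⟨a, b⟩ hw
      rw [Finset.mem_product] at hw
      have ha : a < q₁ := Finset.mem_range.mp hw.1
      have hb : b < q₂ := Finset.mem_range.mp hw.2
      refine ⟨(Nat.chineseRemainder hc a b : ℕ), ?_, ?_⟩
      · exact Finset.mem_range.mpr (Nat.chineseRemainder_lt_mul hc a b (by omega) (by omega))
      · have h3 := (Nat.chineseRemainder hc a b).2
        refine Prod.ext ?_ ?_
        · have h4 : (Nat.chineseRemainder hc a b : ℕ) % q₁ = a % q₁ := h3.1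
          rw [Nat.mod_eq_of_lt ha] at h4
          exact h4
        · have h4 : (Nat.chineseRemainder hc a b : ℕ) % q₂ = b % q₂ := h3.2
          rw [Nat.mod_eq_of_lt hb] at h4
          exact h4
    · intro z _
      rw [ee_split q₁ q₂ h₁ h₂ c₁ c₂ h]
      have e₁ := eval_mod q₁ (C c₁ * G) z
      have e₂ := eval_mod q₂ (C c₂ * G) z
      rw [← ee_congr q₁ _ _ e₁, ← ee_congr q₂ _ _ e₂]
      simp only [eval_mul, eval_C]
  rw [e, Finset.sum_product]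
  have e' : ∑ x ∈ range q₁, ∑ y ∈ range q₂,
      ee q₁ ((C c₁ * G).eval (x : ℤ)) * ee q₂ ((C c₂ * G).eval (y : ℤ)) =
      (∑ x ∈ range q₁, ee q₁ ((C c₁ * G).eval (x : ℤ))) *
        ∑ y ∈ range q₂, ee q₂ ((C c₂ * G).eval (y : ℤ)) := by
    rw [Finset.sum_mul_sum]
  rw [e']
  push_cast
  have e₁ : (q₁ : ℂ) ≠ 0 := by exact_mod_cast (show q₁ ≠ 0 by omega)
  have e₂ : (q₂ : ℂ) ≠ 0 := by exact_mod_cast (show q₂ ≠ 0 by omega)
  field_simp

theorem mul_one' (q₁ q₂ : ℕ) (F : ℤ[X]) (h₁ : 1 ≤ q₁) (h₂ : 1 ≤ q₂) (hc : q₁.Coprime q₂) :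
    ∃ c₁ c₂ : ℤ, IsCoprime c₁ (q₁ : ℤ) ∧ IsCoprime c₂ (q₂ : ℤ) ∧
    ∀ l : ℤ, AA (q₁ * q₂) F l = AA q₁ (C c₁ * F) (c₁ * l) * AA q₂ (C c₂ * F) (c₂ * l) := by
  obtain ⟨a, b, hab⟩ := Nat.isCoprime_iff_coprime.mpr hc
  refine ⟨b, a, ⟨(q₂ : ℤ), a, by linarith⟩, ⟨(q₁ : ℤ), b, by linarith⟩, fun l => ?_⟩
  unfold AA
  rw [SS_mul q₁ q₂ h₁ h₂ hc b a (by linarith), norm_mul, mul_pow]
  have e : ∀ c : ℤ, C c * (F - C l * X) = C c * F - C (c * l) * X := by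
    intro c
    rw [mul_sub, C_mul, mul_assoc]
  rw [e, e]

theorem maj_scale (q : ℕ) (c : ℤ) (A : ℤ → ℝ) (S₁ S₂ : ℝ) (hc : IsCoprime c (q : ℤ))
    (hM : Maj q A S₁ S₂) : Maj q (fun l => A (c * l)) S₁ S₂ := by
  obtain ⟨u, v, huv⟩ := hc
  obtain ⟨n, a, T, x, h1, h2, h3, h4⟩ := hM
  refine ⟨n, a, T, fun i => u * x i, h1, fun l => ?_, h3, h4⟩
  refine le_trans (h2 (c * l)) (le_of_eq ?_)
  refine Finset.sum_congr rfl fun i _ => ?_
  have hd : ((q / T i : ℕ) : ℤ) ∣ (q : ℤ) := by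
    exact_mod_cast Nat.div_dvd_of_dvd (h1 i).2
  have hiff : ((q / T i : ℕ) : ℤ) ∣ c * l - x i ↔ ((q / T i : ℕ) : ℤ) ∣ l - u * x i := by
    constructor
    · intro h
      have e : l - u * x i = u * (c * l - x i) + (q : ℤ) * (v * l) := by
        linear_combination (-l) * huv
      rw [e]
      exact dvd_add (Dvd.dvd.mul_left h u) (Dvd.dvd.mul_right hd _)
    · intro h
      have e : c * l - x i = c * (l - u * x i) - (q : ℤ) * (v * x i) := by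
        linear_combination (x i) * huv
      rw [e]
      exact dvd_sub (Dvd.dvd.mul_left h c) (Dvd.dvd.mul_right hd _)
  by_cases h : ((q / T i : ℕ) : ℤ) ∣ c * l - x i
  · rw [if_pos h, if_pos (hiff.mp h)]
  · rw [if_neg h, if_neg (fun h' => h (hiff.mpr h'))]

theorem maj_mul (q₁ q₂ : ℕ) (A B : ℤ → ℝ) (S₁ S₂ S₃ S₄ : ℝ) (hc : q₁.Coprime q₂)
    (hA : ∀ l, 0 ≤ A l) (hB : ∀ l, 0 ≤ B l) (hM : Maj q₁ A S₁ S₂) (hN : Maj q₂ B S₃ S₄) :
    Maj (q₁ * q₂) (fun l => A l * B l) (S₁ * S₃) (S₂ * S₄) := by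
  obtain ⟨n, a, T, x, h1, h2, h3, h4⟩ := hM
  obtain ⟨n', a', T', x', k1, k2, k3, k4⟩ := hN
  obtain ⟨u, v, huv⟩ := Nat.isCoprime_iff_coprime.mpr hc
  have key : ∀ f : Fin n → Fin n' → ℝ,
      ∑ c : Fin (n * n'), f (finProdFinEquiv.symm c).1 (finProdFinEquiv.symm c).2 =
        ∑ i, ∑ j, f i j := by
    intro f
    rw [← Fintype.sum_prod_type' (fun i j => f i j)]
    exact Equiv.sum_comp finProdFinEquiv.symm (fun w : Fin n × Fin n' => f w.1 w.2)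
  refine ⟨n * n', fun c => a (finProdFinEquiv.symm c).1 * a' (finProdFinEquiv.symm c).2,
    fun c => T (finProdFinEquiv.symm c).1 * T' (finProdFinEquiv.symm c).2,
    fun c => x (finProdFinEquiv.symm c).1 * (v * q₂) + x' (finProdFinEquiv.symm c).2 * (u * q₁),
    ?_, ?_, ?_, ?_⟩
  · intro c
    exact ⟨mul_nonneg (h1 _).1 (k1 _).1, Nat.mul_dvd_mul (h1 _).2 (k1 _).2⟩
  · intro l
    have hb := key (fun i j => if ((q₁ * q₂ / (T i * T' j) : ℕ) : ℤ) ∣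
      l - (x i * (v * q₂) + x' j * (u * q₁)) then a i * a' j else 0)
    refine le_trans ?_ (le_of_eq hb.symm)
    refine le_trans (mul_le_mul (h2 l) (k2 l) (hB l) (le_trans (hA l) (h2 l))) ?_
    rw [Finset.sum_mul_sum]
    refine Finset.sum_le_sum fun i _ => Finset.sum_le_sum fun j _ => ?_
    by_cases hP : ((q₁ / T i : ℕ) : ℤ) ∣ l - x i
    · by_cases hQ : ((q₂ / T' j : ℕ) : ℤ) ∣ l - x' j
      · rw [if_pos hP, if_pos hQ, if_pos]
        have hd₁ : ((q₁ / T i : ℕ) : ℤ) ∣ (q₁ : ℤ) := by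
          exact_mod_cast Nat.div_dvd_of_dvd (h1 i).2
        have hd₂ : ((q₂ / T' j : ℕ) : ℤ) ∣ (q₂ : ℤ) := by
          exact_mod_cast Nat.div_dvd_of_dvd (k1 j).2
        have e₁ : ((q₁ / T i : ℕ) : ℤ) ∣ l - (x i * (v * q₂) + x' j * (u * q₁)) := by
          have e : l - (x i * (v * q₂) + x' j * (u * q₁)) =
              (l - x i) + (q₁ : ℤ) * (u * x i - u * x' j) := by
            linear_combination (-(x i)) * huv
          rw [e]
          exact dvd_add hP (Dvd.dvd.mul_right hd₁ _)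
        have e₂ : ((q₂ / T' j : ℕ) : ℤ) ∣ l - (x i * (v * q₂) + x' j * (u * q₁)) := by
          have e : l - (x i * (v * q₂) + x' j * (u * q₁)) =
              (l - x' j) + (q₂ : ℤ) * (v * x' j - v * x i) := by
            linear_combination (-(x' j)) * huv
          rw [e]
          exact dvd_add hQ (Dvd.dvd.mul_right hd₂ _)
        have hcop : IsCoprime ((q₁ / T i : ℕ) : ℤ) ((q₂ / T' j : ℕ) : ℤ) := by
          refine Nat.isCoprime_iff_coprime.mpr ?_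
          exact Nat.Coprime.of_dvd (Nat.div_dvd_of_dvd (h1 i).2) (Nat.div_dvd_of_dvd (k1 j).2) hc
        have e₃ : q₁ * q₂ / (T i * T' j) = (q₁ / T i) * (q₂ / T' j) :=
          (Nat.div_mul_div_comm (h1 i).2 (k1 j).2).symm
        rw [e₃]
        push_cast
        have := hcop.mul_dvd e₁ e₂
        push_cast at this
        exact this
      · rw [if_neg hQ, mul_zero]
        split_ifs
        · exact mul_nonneg (h1 i).1 (k1 j).1
        · exact le_rfl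
    · rw [if_neg hP, zero_mul]
      split_ifs
      · exact mul_nonneg (h1 i).1 (k1 j).1
      · exact le_rfl
  · have hb := key (fun i j => (a i * a' j) * ((T i * T' j : ℕ) : ℝ))
    refine le_trans (le_of_eq hb) ?_
    have e : ∑ i, ∑ j, (a i * a' j) * ((T i * T' j : ℕ) : ℝ) =
        (∑ i, a i * T i) * ∑ j, a' j * T' j := by
      rw [Finset.sum_mul_sum]
      refine Finset.sum_congr rfl fun i _ => Finset.sum_congr rfl fun j _ => ?_
      push_cast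
      ring
    rw [e]
    refine mul_le_mul h3 k3 (Finset.sum_nonneg fun j _ => mul_nonneg (k1 j).1 (Nat.cast_nonneg _))
      (le_trans (Finset.sum_nonneg fun i _ => mul_nonneg (h1 i).1 (Nat.cast_nonneg _)) h3)
  · have hb := key (fun i j => a i * a' j)
    refine le_trans (le_of_eq hb) ?_
    rw [← Finset.sum_mul_sum]
    refine mul_le_mul h4 k4 (Finset.sum_nonneg fun j _ => (k1 j).1)
      (le_trans (Finset.sum_nonneg fun i _ => (h1 i).1) h4)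

theorem pf_MUL : T_MUL := by
  refine ⟨?_, ?_, ?_⟩
  · intro q₁ q₂ F h₁ h₂ hc
    exact mul_one' q₁ q₂ F h₁ h₂ hc
  · intro q c A S₁ S₂ hc hM
    exact maj_scale q c A S₁ S₂ hc hM
  · intro q₁ q₂ A B S₁ S₂ S₃ S₄ _ _ hc hA hB hM hN
    exact maj_mul q₁ q₂ A B S₁ S₂ S₃ S₄ hc hA hB hM hN

end Pool.Agent.H73.LV
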