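import Pool.Agent.H26.LV.TargetsAri

/-!
# Decomposition along the tree of discs (row TRE)
-/

set_option autoImplicit false

namespace Pool.Agent.H73.LV

open Finset Polynomial Pool.Agent.H26.LV

theorem sum_range_mul' {M : Type} [AddCommMonoid M] (f : ℕ → M) (a n : ℕ) :
    ∑ z ∈ range (a * n), f z = ∑ t ∈ range n, ∑ y ∈ range a, f (y + a * t) := by
  induction n with
  | zero => simp
  | succ n ih =>
    rw [Nat.mul_succ, Finset.sum_range_add, ih, Finset.sum_range_succ]
    refine congrArg₂ _ rfl (Finset.sum_congr rfl fun y _ => ?_)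
    rw [Nat.add_comm]

theorem dsc_eval (p i : ℕ) (y : ℤ) (G : ℤ[X]) (z : ℤ) :
    (dsc p i y G).eval z = G.eval (y + (p : ℤ) ^ i * z) := by
  unfold dsc
  rw [eval_comp]
  simp only [eval_add, eval_mul, eval_C, eval_X]

theorem cD_split (p m i : ℕ) (y : ℤ) (F : ℤ[X]) (l : ℤ) (hi : i < m) :
    cD p m i y F l = ∑ t ∈ range p, cD p m (i + 1) (y + (p : ℤ) ^ i * (t : ℤ)) F l := by
  unfold cD
  rw [← Finset.mul_sum]
  refine congrArg _ ?_
  have e : p ^ (m - i) = p * p ^ (m - (i + 1)) := by
    rw [← pow_succ']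
    refine congrArg _ ?_
    omega
  rw [e, sum_range_mul', Finset.sum_comm]
  refine Finset.sum_congr rfl fun t _ => Finset.sum_congr rfl fun z _ => ?_
  rw [dsc_eval, dsc_eval]
  refine congrArg (fun w => ee (p ^ m) (eval w (F - C l * X))) ?_
  push_cast
  ring

theorem cD_zero (p m : ℕ) (F : ℤ[X]) (l : ℤ) :
    cD p m 0 0 F l = SS (p ^ m) (F - C l * X) := by
  unfold cD SS
  rw [Nat.sub_zero]
  have e : (1 / (p : ℂ) ^ m) = 1 / ((p ^ m : ℕ) : ℂ) := by push_cast; rfl
  rw [e]
  refine congrArg _ (Finset.sum_congr rfl fun z _ => ?_)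
  rw [dsc_eval]
  refine congrArg (fun w => ee (p ^ m) (eval w (F - C l * X))) ?_
  simp

open Classical in
theorem pf_TRE : T_TRE := by
  intro p m F l Nt hp hcl hm h0
  have key : ∀ i, i ≤ m → SS (p ^ m) (F - C l * X) =
      (∑ i' ∈ range i, ∑ y ∈ (range (p ^ i')).filter (fun y => Nt i' y),
        ∑ t ∈ (range p).filter (fun t => ¬ Nt (i' + 1) (y + p ^ i' * t)),
          cD p m (i' + 1) ((y : ℤ) + (p : ℤ) ^ i' * (t : ℤ)) F l) +
      ∑ y ∈ (range (p ^ i)).filter (fun y => Nt i y), cD p m i (y : ℤ) F l := by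
    intro i
    induction i with
    | zero =>
      intro _
      rw [Finset.sum_range_zero, zero_add, pow_zero]
      have e : (range 1).filter (fun y => Nt 0 y) = {0} := by
        ext y
        simp only [Finset.mem_filter, Finset.mem_range, Nat.lt_one_iff, Finset.mem_singleton]
        constructor
        · exact fun h => h.1
        · rintro rfl
          exact ⟨rfl, h0⟩
      rw [e, Finset.sum_singleton]
      exact (cD_zero p m F l).symm
    | succ i ih =>
      intro hi
      rw [ih (by omega), Finset.sum_range_succ, add_assoc]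
      refine congrArg _ ?_
      have hA : ∑ y ∈ (range (p ^ i)).filter (fun y => Nt i y), cD p m i (y : ℤ) F l =
          ∑ y ∈ (range (p ^ i)).filter (fun y => Nt i y),
            ((∑ t ∈ (range p).filter (fun t => ¬ Nt (i + 1) (y + p ^ i * t)),
              cD p m (i + 1) ((y : ℤ) + (p : ℤ) ^ i * (t : ℤ)) F l) +
            ∑ t ∈ range p, if Nt (i + 1) (y + p ^ i * t) then
              cD p m (i + 1) ((y : ℤ) + (p : ℤ) ^ i * (t : ℤ)) F l else 0) := by
        refine Finset.sum_congr rfl fun y _ => ?_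
        rw [cD_split p m i (y : ℤ) F l (by omega), Finset.sum_filter, ← Finset.sum_add_distrib]
        refine Finset.sum_congr rfl fun t _ => ?_
        by_cases h : Nt (i + 1) (y + p ^ i * t)
        · rw [if_neg (not_not_intro h), if_pos h, zero_add]
        · rw [if_pos h, if_neg h, add_zero]
      rw [hA, Finset.sum_add_distrib]
      refine congrArg _ ?_
      rw [Finset.sum_filter (fun y => Nt (i + 1) y), pow_succ, sum_range_mul', Finset.sum_comm]
      refine Finset.sum_congr rfl fun t _ => ?_
      rw [Finset.sum_filter]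
      refine Finset.sum_congr rfl fun y _ => ?_
      by_cases hy : Nt i y
      · rw [if_pos hy]
        have e : ((y + p ^ i * t : ℕ) : ℤ) = (y : ℤ) + (p : ℤ) ^ i * (t : ℤ) := by push_cast; rfl
        rw [e]
      · rw [if_neg hy, if_neg]
        exact fun h => hy (hcl i y t h)
  have h := key m le_rfl
  rw [h]
  have e : (range (p ^ m)).filter (fun y => Nt m y) = ∅ := by
    refine Finset.filter_eq_empty_iff.mpr fun y _ => hm y
  rw [e, Finset.sum_empty, add_zero]

end Pool.Agent.H73.LV
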